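import Mathlib
import Pool.Agent.X200.FullSusQ

/-!
MP_6bb66b_gt: under the diamond principle there is an uncountable open Whyburn Hausdorff
semi-regular (even regular and first countable) space `X` with `Q_p(X, ℝ)` Fréchet-Urysohn.
-/

set_option autoImplicit false

namespace Pool.Agent.Results.MP_6bb66b_gt.DiamondExample

open Set Topology TopologicalSpace Filter

/-- The well-ordered set of type `ω₁`. -/
abbrev Om : Type := (Cardinal.aleph 1).ord.ToType

/-- `C` is a closed unbounded subset of `ω₁`. -/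
def IsClubSet (C : Set Om) : Prop :=
  (∀ a, ∃ b, a < b ∧ b ∈ C) ∧
    ∀ a, (∃ b, b < a) → (∀ b, b < a → ∃ c, (b < c ∧ c < a) ∧ c ∈ C) → a ∈ C

/-- Jensen's principle diamond. -/
def Diamond : Prop :=
  ∃ A : Om → Set Om, ∀ S C : Set Om, IsClubSet C → ∃ a ∈ C, ∀ b < a, (b ∈ S ↔ b ∈ A a)

/-- Quasicontinuous functions. -/
def QC {X : Type*} [TopologicalSpace X] (f : X → ℝ) : Prop :=
  ∀ (x : X) (U : Set X), IsOpen U → x ∈ U → ∀ V : Set ℝ, IsOpen V → f x ∈ V →
    ∃ W : Set X, IsOpen W ∧ W.Nonempty ∧ W ⊆ U ∧ f '' W ⊆ V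

/-- `Q_p(X, ℝ)`: the quasicontinuous functions with the topology of pointwise convergence. -/
def Qp (X : Type*) [TopologicalSpace X] : Type _ := {f : X → ℝ // QC f}

instance (X : Type*) [TopologicalSpace X] : TopologicalSpace (Qp X) :=
  inferInstanceAs (TopologicalSpace {f : X → ℝ // QC f})

/-- Open Whyburn spaces. -/
def OpenWhyburn (X : Type*) [TopologicalSpace X] : Prop :=
  ∀ A : Set X, IsOpen A → ∀ x ∈ closure A \ A, ∃ B : Set X, IsOpen B ∧ B ⊆ A ∧ closure B \ A = {x}

/-- Semi-regular spaces: the regular open sets form a base. -/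
def SemiRegular (X : Type*) [TopologicalSpace X] : Prop :=
  IsTopologicalBasis {U : Set X | interior (closure U) = U}

theorem result (hD : Diamond) :
    ∃ (X : Type) (_ : TopologicalSpace X), T2Space X ∧ SemiRegular X ∧ OpenWhyburn X ∧
      FrechetUrysohnSpace (Qp X) ∧ ¬ Countable X ∧ RegularSpace X ∧ FirstCountableTopology X :=
  Pool.Agent.X200.FullSus.main hD

end Pool.Agent.Results.MP_6bb66b_gt.DiamondExample
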